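import Pool.Agent.helper47.PF.AIC

/-!
# pf:AFH: enumeration of an infinite computable set with a computable left inverse
-/

namespace PF

/-- the number of the elements `< p` of the set decided by `b` -/
def AFH_cnt (b : ℕ → Bool) : ℕ → ℕ
  | 0 => 0
  | p + 1 => AFH_cnt b p + (if b p = true then 1 else 0)

theorem AFH_cnt_mono (b : ℕ → Bool) : Monotone (AFH_cnt b) :=
  monotone_nat_of_le_succ fun n => by
    show AFH_cnt b n ≤ AFH_cnt b n + _
    omega

theorem AFH_cnt_lt (b : ℕ → Bool) {p q : ℕ} (hp : b p = true) (h : p < q) :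
    AFH_cnt b p < AFH_cnt b q := by
  have h1 : AFH_cnt b (p + 1) ≤ AFH_cnt b q := AFH_cnt_mono b h
  have h2 : AFH_cnt b (p + 1) = AFH_cnt b p + 1 := by
    show AFH_cnt b p + (if b p = true then 1 else 0) = _
    rw [if_pos hp]
  omega

theorem AFH_cnt_const (b : ℕ → Bool) (p : ℕ) : ∀ q, p ≤ q → (∀ r, p ≤ r → r < q → b r = false) →
    AFH_cnt b q = AFH_cnt b p := by
  intro q hq
  induction q, hq using Nat.le_induction with
  | base => intro _; rfl
  | succ q hq ih =>
    intro h
    show AFH_cnt b q + (if b q = true then 1 else 0) = _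
    rw [h q hq (Nat.lt_succ_self q), ih (fun r h1 h2 => h r h1 (by omega))]
    simp

theorem AFH_cnt_comp {b : ℕ → Bool} (hb : Computable b) : Computable (AFH_cnt b) := by
  have h1 : Computable (fun p : ℕ => Nat.rec (motive := fun _ => ℕ) 0
      (fun q y => y + cond (b q) 1 0) p) := by
    refine Computable.nat_rec (f := fun n : ℕ => n) (g := fun _ => 0)
      (h := fun (_ : ℕ) (z : ℕ × ℕ) => z.2 + cond (b z.1) 1 0) Computable.id
      (Computable.const _) ?_
    have h2 : Computable (fun z : ℕ × (ℕ × ℕ) => cond (b z.2.1) 1 0) :=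
      Computable.cond (hb.comp (Computable.fst.comp Computable.snd)) (Computable.const 1)
        (Computable.const 0)
    exact Primrec.nat_add.to_comp.comp (Computable.snd.comp Computable.snd) h2
  refine h1.of_eq fun p => ?_
  induction p with
  | zero => rfl
  | succ p ih =>
    show (Nat.rec (motive := fun _ => ℕ) 0 (fun q y => y + cond (b q) 1 0) p) + cond (b p) 1 0 =
      AFH_cnt b p + (if b p = true then 1 else 0)
    rw [ih]
    cases b p <;> simp

theorem AFH : AFH_stmt := by
  intro R hR hinf
  obtain ⟨b, hb, hbR⟩ := (R3_iff R).1 hR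
  -- least element of `R` which is `≥ a`
  have hsearch : Computable₂ (fun (a c : ℕ) => (b (a + c) : Bool)) :=
    hb.comp (Primrec.nat_add.to_comp.comp Computable.fst Computable.snd)
  have hex : ∀ a : ℕ, ∃ c, b (a + c) = true := by
    intro a
    obtain ⟨k, hk, hak⟩ := hinf.exists_gt a
    refine ⟨k - a, ?_⟩
    rw [Nat.add_sub_cancel' (le_of_lt hak)]
    exact (hbR k).1 hk
  obtain ⟨m, hm, hms⟩ := AIC_find hsearch hex
  let nx : ℕ → ℕ := fun a => a + m a
  have hnx : Computable nx := Primrec.nat_add.to_comp.comp Computable.id hm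
  have hnx1 : ∀ a, b (nx a) = true := fun a => (hms a).1
  have hnx2 : ∀ a r, a ≤ r → r < nx a → b r = false := by
    intro a r h1 h2
    have h3 := (hms a).2 (r - a) (by show r - a < m a; have : r < a + m a := h2; omega)
    rwa [Nat.add_sub_cancel' h1] at h3
  let f : ℕ → ℕ := fun n => Nat.rec (motive := fun _ => ℕ) (nx 0) (fun _ y => nx (y + 1)) n
  have hf : Computable f := by
    have hh : Computable₂ (fun (_ : ℕ) (y : ℕ × ℕ) => nx (y.2 + 1)) :=
      hnx.comp (Primrec.succ.to_comp.comp (Computable.snd.comp Computable.snd))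
    exact Computable.nat_rec (f := fun n : ℕ => n) (g := fun _ => nx 0) Computable.id
      (Computable.const _) hh
  have hfs : ∀ n, f (n + 1) = nx (f n + 1) := fun n => rfl
  have hfb : ∀ n, b (f n) = true := by
    intro n
    cases n with
    | zero => exact hnx1 0
    | succ n =>
      rw [hfs]
      exact hnx1 _
  have hcf : ∀ n, AFH_cnt b (f n) = n := by
    intro n
    induction n with
    | zero =>
      show AFH_cnt b (nx 0) = 0
      rw [AFH_cnt_const b 0 (nx 0) (Nat.zero_le _) (hnx2 0)]
      rfl
    | succ n ih =>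
      rw [hfs]
      rw [AFH_cnt_const b (f n + 1) (nx (f n + 1)) (Nat.le_add_right _ _) (hnx2 (f n + 1))]
      show AFH_cnt b (f n) + (if b (f n) = true then 1 else 0) = n + 1
      rw [hfb n, ih]
      simp
  let nb : ℕ → Bool := fun p => !(b p)
  have hnb : Computable nb := Primrec.not.to_comp.comp hb
  refine ⟨f, fun p => cond (b p) (AFH_cnt b p) (AFH_cnt nb p), hf,
    Computable.cond hb (AFH_cnt_comp hb) (AFH_cnt_comp hnb), ?_, ?_, ?_⟩
  · intro n
    exact (hbR _).2 (hfb n)
  · intro n
    show cond (b (f n)) (AFH_cnt b (f n)) (AFH_cnt nb (f n)) = n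
    rw [hfb n]
    exact hcf n
  · intro n
    have hA : {p | b p = true ∧ AFH_cnt b p = n}.Subsingleton := by
      rintro p ⟨hp1, hp2⟩ q ⟨hq1, hq2⟩
      rcases lt_trichotomy p q with h | h | h
      · have := AFH_cnt_lt b hp1 h
        omega
      · exact h
      · have := AFH_cnt_lt b hq1 h
        omega
    have hB : {p | nb p = true ∧ AFH_cnt nb p = n}.Subsingleton := by
      rintro p ⟨hp1, hp2⟩ q ⟨hq1, hq2⟩
      rcases lt_trichotomy p q with h | h | h
      · have := AFH_cnt_lt nb hp1 h
        omega
      · exact h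
      · have := AFH_cnt_lt nb hq1 h
        omega
    refine (hA.finite.union hB.finite).subset ?_
    intro p hp
    have hp' : cond (b p) (AFH_cnt b p) (AFH_cnt nb p) = n := hp
    cases hc : b p with
    | true =>
      rw [hc] at hp'
      exact Or.inl ⟨hc, hp'⟩
    | false =>
      rw [hc] at hp'
      refine Or.inr ⟨?_, hp'⟩
      show (!(b p)) = true
      rw [hc]
      rfl

end PF
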