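import Pool.Agent.helper88.PF.Spec

/-!
# pf:AIC: an infinite c.e. set contains an infinite computable set
-/

namespace PF

/-- minimisation of a total search is computable -/
theorem AIC_find {α : Type} [Primcodable α] {p : α → ℕ → Bool} (hp : Computable₂ p)
    (h : ∀ a, ∃ n, p a n = true) :
    ∃ f : α → ℕ, Computable f ∧ ∀ a, p a (f a) = true ∧ ∀ m, m < f a → p a m = false := by
  classical
  refine ⟨fun a => Nat.find (h a), ?_, ?_⟩
  · have h1 : Partrec (fun a => Nat.rfind (fun n => Part.some (p a n))) :=
      Partrec.rfind (p := fun a n => Part.some (p a n)) hp.partrec₂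
    refine h1.of_eq fun a => ?_
    refine Part.eq_some_iff.2 ?_
    refine Nat.mem_rfind.2 ⟨?_, ?_⟩
    · have h2 := Nat.find_spec (h a)
      rw [Part.mem_some_iff]
      exact h2.symm
    · intro m hm
      have h2 := Nat.find_min (h a) hm
      rw [Part.mem_some_iff]
      cases hc : p a m with
      | false => rfl
      | true => exact absurd hc h2
  · intro a
    refine ⟨Nat.find_spec (h a), fun m hm => ?_⟩
    have h2 := Nat.find_min (h a) hm
    cases hc : p a m with
    | false => rfl
    | true => exact absurd hc h2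

theorem AIC : AIC_stmt := by
  intro P hP hinf
  obtain ⟨T, hT, -, hTp⟩ := (re_iff P).1 hP
  -- the search predicate
  have hsearch : Computable₂ (fun (a c : ℕ) => (T (c.unpair) && decide (a < c.unpair.1) : Bool)) := by
    have h1 : Computable (fun z : ℕ × ℕ => T (z.2.unpair)) :=
      hT.comp (Primrec.unpair.to_comp.comp Computable.snd)
    have h2 : Computable (fun z : ℕ × ℕ => decide (z.1 < z.2.unpair.1)) := by
      have h3 : ComputablePred (fun z : ℕ × ℕ => z.1 < z.2.unpair.1) :=
        cp_lt Computable.fst (Computable.fst.comp (Primrec.unpair.to_comp.comp Computable.snd))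
      obtain ⟨f, hf, hfi⟩ := (R3_iff _).1 h3
      refine hf.of_eq fun z => ?_
      have := hfi z
      cases hc : f z with
      | false =>
        rw [hc] at this
        exact (decide_eq_false (fun h => by simpa using this.1 h)).symm
      | true =>
        rw [hc] at this
        exact (decide_eq_true (this.2 rfl)).symm
    exact (Primrec.and.to_comp.comp h1 h2 : Computable (fun z : ℕ × ℕ =>
      (T (z.2.unpair) && decide (z.1 < z.2.unpair.1) : Bool)))
  have hex : ∀ a : ℕ, ∃ c : ℕ, (T (c.unpair) && decide (a < c.unpair.1) : Bool) = true := by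
    intro a
    obtain ⟨k, hk, hak⟩ := hinf.exists_gt a
    obtain ⟨n, hn⟩ := (hTp k).1 hk
    refine ⟨Nat.pair k n, ?_⟩
    rw [Nat.unpair_pair, Bool.and_eq_true]
    exact ⟨hn, decide_eq_true hak⟩
  obtain ⟨f, hf, hfs⟩ := AIC_find hsearch hex
  have hnx : Computable (fun a : ℕ => (f a).unpair.1) :=
    Computable.fst.comp (Primrec.unpair.to_comp.comp hf)
  have hnxP : ∀ a, P ((f a).unpair.1) ∧ a < (f a).unpair.1 := by
    intro a
    have h1 := (hfs a).1
    rw [Bool.and_eq_true] at h1
    exact ⟨(hTp _).2 ⟨_, h1.1⟩, of_decide_eq_true h1.2⟩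
  let nx : ℕ → ℕ := fun a => (f a).unpair.1
  let g : ℕ → ℕ := fun n => Nat.rec (motive := fun _ => ℕ) (nx 0) (fun _ y => nx y) n
  have hg : Computable g := by
    have hh : Computable₂ (fun (_ : ℕ) (y : ℕ × ℕ) => nx y.2) :=
      hnx.comp (Computable.snd.comp Computable.snd)
    exact Computable.nat_rec (f := fun n : ℕ => n) (g := fun _ => nx 0) Computable.id
      (Computable.const _) hh
  have hg0 : g 0 = nx 0 := rfl
  have hgs : ∀ n, g (n + 1) = nx (g n) := fun n => rfl
  have hmono : StrictMono g := strictMono_nat_of_lt_succ fun n => by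
    rw [hgs]
    exact (hnxP (g n)).2
  have hgP : ∀ n, P (g n) := by
    intro n
    cases n with
    | zero => exact (hnxP 0).1
    | succ n =>
      rw [hgs]
      exact (hnxP (g n)).1
  refine ⟨fun k => ∃ n < k + 1, g n = k, ?_, ?_, ?_⟩
  · refine cp_bex (p := fun k n => g n = k) (g := fun k => k + 1) ?_ ?_
    · exact cp_eq (hg.comp Computable.snd) Computable.fst
    · exact Primrec.succ.to_comp
  · refine (Set.infinite_range_of_injective hmono.injective).mono ?_
    rintro _ ⟨n, rfl⟩
    exact ⟨n, by have := hmono.id_le n; simp only [id] at this; omega, rfl⟩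
  · rintro k ⟨n, -, rfl⟩
    exact hgP n

end PF
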